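import Mathlib
import Pool.Agent.V7H47.LB.Spec

set_option autoImplicit false

/-! Piece W2 for helper47's project LB. -/

namespace Pool.Agent.V7H70.LB

open Real Set MeasureTheory
open Pool.Agent.V7H47.TC (Plane IsClosedWorm IsTranslationCover)
open Pool.Agent.V7H47.LB

/-- the algebraic core -/
lemma core {q s k c : ℝ} (hq0 : 0 ≤ q) (hq : q ^ 2 = 3) (hs : 0 ≤ s) (hk : 0.707 ≤ k)
    (hsk : s ^ 2 + k ^ 2 = 1) (hc : 0.7 ≤ c) (hc1 : c ≤ 1) :
    k * (s + c) ≤ q / 4 + q / 2 * c + (1 - c) ^ 2 / 16 := by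
  have hq1 : 1.732 ≤ q := by nlinarith
  have hq2 : q ≤ 1.7321 := by nlinarith
  obtain ⟨u, hu⟩ : ∃ u, u = 1 - c := ⟨_, rfl⟩
  obtain ⟨x, hx⟩ : ∃ x, x = s - 1 / 2 := ⟨_, rfl⟩
  obtain ⟨v, hv⟩ : ∃ v, v = q / 2 - k := ⟨_, rfl⟩
  have hu0 : 0 ≤ u := by linarith
  have hu1 : u ≤ 0.3 := by linarith
  have hs' : s = x + 1 / 2 := by linarith
  have hk' : k = q / 2 - v := by linarith
  have hc' : c = 1 - u := by linarith
  have h1 : x ^ 2 + v ^ 2 = q * v - x := by
    rw [hs', hk'] at hsk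
    nlinarith
  have hv1 : v ≤ 0.16 := by linarith
  have key : 0 ≤ u ^ 2 / 16 - u * v + (q / 2 * (x ^ 2 + v ^ 2) + x * v) := by
    rcases le_total v 0 with h | h
    · have h2 : 0 ≤ u * (-v) := mul_nonneg hu0 (by linarith)
      nlinarith [sq_nonneg u, sq_nonneg (x + v), sq_nonneg x, sq_nonneg v,
        mul_nonneg (sub_nonneg.2 hq1) (add_nonneg (sq_nonneg x) (sq_nonneg v))]
    · have hx0 : 0 ≤ x := by
        have h3 : k ^ 2 ≤ 3 / 4 := by
          have : k ≤ q / 2 := by linarith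
          nlinarith
        nlinarith
      have hxq : x ≤ q * v := by nlinarith [sq_nonneg x, sq_nonneg v]
      have hx2 : x ^ 2 ≤ 3 * v ^ 2 := by
        have := mul_self_le_mul_self hx0 hxq
        nlinarith
      have hxl : (1.732 - 4 * v) * v ≤ x := by nlinarith
      have hw : 0 ≤ (1.732 - 4 * v) * v := mul_nonneg (by linarith) h
      have hx3 : ((1.732 - 4 * v) * v) ^ 2 ≤ x ^ 2 := by
        have := mul_self_le_mul_self hw hxl
        nlinarith
      have hE : v ^ 2 * (5.195 - 16 * v) ≤ q / 2 * (x ^ 2 + v ^ 2) + x * v := by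
        have h4 : 0.866 * (x ^ 2 + v ^ 2) ≤ q / 2 * (x ^ 2 + v ^ 2) :=
          mul_le_mul_of_nonneg_right (by linarith) (by positivity)
        have h5 : (1.732 - 4 * v) * v * v ≤ x * v := mul_le_mul_of_nonneg_right hxl h
        have h6 : 0.866 * (((1.732 - 4 * v) * v) ^ 2 + v ^ 2) ≤ 0.866 * (x ^ 2 + v ^ 2) := by
          linarith
        have h7 : v ^ 2 * (5.195 - 16 * v) ≤
            0.866 * (((1.732 - 4 * v) * v) ^ 2 + v ^ 2) + (1.732 - 4 * v) * v * v := by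
          have i1 : 0.866 * (((1.732 - 4 * v) * v) ^ 2 + v ^ 2) + (1.732 - 4 * v) * v * v -
              v ^ 2 * (5.195 - 16 * v) = v ^ 2 * (0.000847584 + 0.000704 * v + 13.856 * v ^ 2) := by
            ring
          have i2 : 0 ≤ v ^ 2 * (0.000847584 + 0.000704 * v + 13.856 * v ^ 2) := by positivity
          linarith
        linarith
      rcases le_total v (1 / 16) with h8 | h8
      · have h9 : 0 ≤ v ^ 2 * (1.195 - 16 * v) := mul_nonneg (sq_nonneg _) (by linarith)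
        have h10 : v ^ 2 * (5.195 - 16 * v) = v ^ 2 * (1.195 - 16 * v) + 4 * v ^ 2 := by ring
        have h11 := sq_nonneg (u / 4 - 2 * v)
        have h12 : (u / 4 - 2 * v) ^ 2 = u ^ 2 / 16 - u * v + 4 * v ^ 2 := by ring
        linarith
      · have h9 : 0 ≤ (0.3 - u) * (v - (0.3 + u) / 16) :=
          mul_nonneg (by linarith) (by linarith)
        have h9' : (0.3 - u) * (v - (0.3 + u) / 16) =
          u ^ 2 / 16 - u * v + 0.3 * v - 0.005625 := by ring
        have ht : 0 ≤ (v - 1 / 16) ^ 2 * (2.195 - 16 * (v - 1 / 16)) :=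
          mul_nonneg (sq_nonneg _) (by linarith)
        have h10 : v ^ 2 * (5.195 - 16 * v) - 0.3 * v + 0.005625 = 0.00326171875 +
          0.161875 * (v - 1 / 16) + (v - 1 / 16) ^ 2 * (2.195 - 16 * (v - 1 / 16)) := by ring
        linarith
  have h20 : (q / 2 - v) * (x + 1 / 2 + (1 - u)) = q * 3 / 4 - u * (q / 2) + u * v +
    (q / 2 * x - 3 / 2 * v - v * x) := by ring
  have h21 : q / 2 * (x ^ 2 + v ^ 2) = 3 / 2 * v - q / 2 * x := by
    rw [h1]; linear_combination (v / 2) * hq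
  rw [hs', hk', hc', h20]
  rw [h21] at key
  have h22 : (1 - (1 - u)) ^ 2 / 16 = u ^ 2 / 16 := by ring
  rw [h22]
  linarith

lemma D_add_two_pi (t : ℝ) (x : Plane) : D (t + 2 * π) x = D t x := by
  unfold D
  rw [Real.cos_add_two_pi, Real.sin_add_two_pi]

lemma cos_ge {t : ℝ} (h0 : 0 ≤ t) (h1 : t ≤ π / 4) : 0.707 ≤ cos t := by
  have h2 : cos (π / 4) ≤ cos t :=
    Real.cos_le_cos_of_nonneg_of_le_pi h0 (by linarith [Real.pi_pos]) h1
  rw [Real.cos_pi_div_four] at h2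
  have h3 : (1.414 : ℝ) ≤ √2 := by
    apply Real.le_sqrt_of_sq_le
    norm_num
  linarith

lemma phi_bound {A η : ℝ} (hA : 0 ≤ A) (hA1 : A ≤ π / 4) (hη : 0 ≤ η) (hη1 : η ≤ π / 4) :
    cos A * (sin A + cos η) ≤ phi η := by
  have h1 := cos_ge hA hA1
  have h2 := cos_ge hη hη1
  have h3 : 0 ≤ sin A := Real.sin_nonneg_of_nonneg_of_le_pi hA (by linarith [Real.pi_pos])
  have h4 : sin A ^ 2 + cos A ^ 2 = 1 := Real.sin_sq_add_cos_sq A
  have := core (q := √3) (s := sin A) (k := cos A) (c := cos η) (Real.sqrt_nonneg _)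
    (Real.sq_sqrt (by norm_num)) h3 h1 h4 (by linarith) (Real.cos_le_one _)
  unfold phi
  linarith

/-- one contact -/
lemma contact (hACU : S_ACU) {K : Set Plane} (hK : IsTranslationCover K) {r n n' e f N M : ℝ}
    (hr : 0 < r) (hN : 0 ≤ N) (hM : 0 ≤ M)
    (h1 : n + π / 2 < e) (h2 : n' + π / 2 < e) (h3 : e + π / 2 < f)
    (h4 : f + π / 2 < n + 2 * π) (h5 : f + π / 2 < n' + 2 * π) (h6 : f < e + π)
    (h7 : n ≤ n') (h8 : n' - n ≤ π / 2)
    (b1 : ∀ x ∈ K, D n x ≤ r + N) (b2 : ∀ x ∈ K, D n' x ≤ r + M)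
    (b3 : ∀ x ∈ K, D e x ≤ r) (b4 : ∀ x ∈ K, D f x ≤ r) :
    1 - 4 * r * phi ((n' - n) / 2) ≤ N + M := by
  have e1 := hACU K hK n e f h1 h3 h4 (r + N) r r b1 b3 b4
  have e2 := hACU K hK n' e f h2 h3 h5 (r + M) r r b2 b3 b4
  obtain ⟨η, hη⟩ : ∃ η, η = (n' - n) / 2 := ⟨_, rfl⟩
  obtain ⟨A, hA⟩ : ∃ A, A = (π - (f - e)) / 2 := ⟨_, rfl⟩
  obtain ⟨ω, hω⟩ : ∃ ω, ω = (n + n') / 2 + π - (e + f) / 2 := ⟨_, rfl⟩
  rw [← hη]
  have a1 : sin (f - e) = 2 * sin A * cos A := by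
    rw [← Real.sin_two_mul, show f - e = π - 2 * A by rw [hA]; ring, Real.sin_pi_sub]
  have a2 : sin (n + 2 * π - f) + sin (e - n) = 2 * cos A * cos (ω - η) := by
    have i1 : n + 2 * π - f = (ω - η - (π / 2 - A)) + π := by rw [hω, hη, hA]; ring
    have i2 : e - n = π - ((π / 2 - A) + (ω - η)) := by rw [hω, hη, hA]; ring
    rw [i1, i2, Real.sin_add_pi, Real.sin_pi_sub, Real.sin_sub, Real.sin_add, Real.sin_pi_div_two_sub,
      Real.cos_pi_div_two_sub]
    ring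
  have a3 : sin (n' + 2 * π - f) + sin (e - n') = 2 * cos A * cos (ω + η) := by
    have i1 : n' + 2 * π - f = (ω + η - (π / 2 - A)) + π := by rw [hω, hη, hA]; ring
    have i2 : e - n' = π - ((π / 2 - A) + (ω + η)) := by rw [hω, hη, hA]; ring
    rw [i1, i2, Real.sin_add_pi, Real.sin_pi_sub, Real.sin_sub, Real.sin_add (π / 2 - A),
      Real.sin_pi_div_two_sub, Real.cos_pi_div_two_sub]
    ring
  have a4 : cos (ω - η) + cos (ω + η) = 2 * cos ω * cos η := by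
    rw [Real.cos_sub, Real.cos_add]
    ring
  have hA0 : 0 ≤ A := by rw [hA]; linarith
  have hA1 : A ≤ π / 4 := by rw [hA]; linarith
  have hη0 : 0 ≤ η := by rw [hη]; linarith
  have hη1 : η ≤ π / 4 := by rw [hη]; linarith
  have c1 := cos_ge hA0 hA1
  have c2 := cos_ge hη0 hη1
  have c3 := phi_bound hA0 hA1 hη0 hη1
  have c4 : sin (f - e) ≤ 1 := Real.sin_le_one _
  have c5 : cos ω ≤ 1 := Real.cos_le_one _
  -- sum
  have s1 : 1 ≤ sin (f - e) * (N + M) + 2 * r * sin (f - e) +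
      r * (2 * cos A * cos (ω - η) + 2 * cos A * cos (ω + η)) := by
    rw [← a2, ← a3]
    linarith
  have s2 : sin (f - e) * (N + M) ≤ N + M := by nlinarith
  have s3 : 2 * cos A * cos (ω - η) + 2 * cos A * cos (ω + η) ≤ 4 * cos A * cos η := by
    have : 2 * cos A * cos (ω - η) + 2 * cos A * cos (ω + η) = 4 * cos A * cos η * cos ω := by
      linear_combination 2 * cos A * a4
    rw [this]
    have h9 : 0 ≤ 4 * cos A * cos η := by positivity
    nlinarith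
  have s4 : r * (2 * cos A * cos (ω - η) + 2 * cos A * cos (ω + η)) ≤ r * (4 * cos A * cos η) :=
    mul_le_mul_of_nonneg_left s3 hr.le
  have s5 : 4 * r * (cos A * (sin A + cos η)) ≤ 4 * r * phi η :=
    mul_le_mul_of_nonneg_left c3 (by linarith)
  rw [a1] at s1 s2
  nlinarith

theorem t_W2 (hACU : S_ACU) : S_W2 := by
  intro K r a b e d₁ d₂ d₃ p₁ p₂ p₃ γ₁ γ₂ γ₃ hK hr hG ka kb ke _ _ _ g1 g2 g3 q1 q2 q3 q4 q5 q6
    m₁ n₁ m₂ n₂ m₃ n₃ hm1 hn1 hm2 hn2 hm3 hn3 km1 kn1 km2 kn2 km3 kn3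
  obtain ⟨G1, G2, G3, G4, G5, G6⟩ := hG
  have ka' : ∀ x ∈ K, D (a + 2 * π) x ≤ r := fun x hx => by
    rw [D_add_two_pi]; exact ka x hx
  have kb' : ∀ x ∈ K, D (b + 2 * π) x ≤ r := fun x hx => by
    rw [D_add_two_pi]; exact kb x hx
  have ke' : ∀ x ∈ K, D (e + 2 * π) x ≤ r := fun x hx => by
    rw [D_add_two_pi]; exact ke x hx
  have km1' : ∀ x ∈ K, D (p₁ + 2 * π - γ₁) x ≤ r + m₁ := fun x hx => by
    rw [show p₁ + 2 * π - γ₁ = (p₁ - γ₁) + 2 * π by ring, D_add_two_pi]; exact km1 x hx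
  have t1 := contact hACU hK (n := p₁ + γ₁) (n' := p₂ - γ₂) (e := e) (f := a + 2 * π) hr hn1 hm2
    (by linarith) (by linarith) (by linarith) (by linarith) (by linarith) (by linarith)
    (by linarith) (by linarith) kn1 km2 ke ka'
  have t2 := contact hACU hK (n := p₂ + γ₂) (n' := p₃ - γ₃) (e := a + 2 * π) (f := b + 2 * π)
    hr hn2 hm3
    (by linarith) (by linarith) (by linarith) (by linarith) (by linarith) (by linarith)
    (by linarith) (by linarith) kn2 km3 ka' kb'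
  have t3 := contact hACU hK (n := p₃ + γ₃) (n' := p₁ + 2 * π - γ₁) (e := b + 2 * π)
    (f := e + 2 * π) hr hn3 hm1
    (by linarith) (by linarith) (by linarith) (by linarith) (by linarith) (by linarith)
    (by linarith) (by linarith) kn3 km1' kb' ke'
  unfold eta
  linarith

end Pool.Agent.V7H70.LB
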